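import Pool.Agent.Work.MP_13da68_co.Lower

open Filter Asymptotics

namespace Pool.Agent.Results.MP_13da68_co.ExponentThree

open Pool.Agent.Work.MP_13da68_co

/-- Q2 of MP_13da68_co, negative answer: in dimension `d = 3` every exponent `C` with
`t_{n,3} = O(n^C (3^{1/3})^{n^3})` satisfies `C ≥ 3`; in particular `C = d - 1 = 2` is not
admissible. -/
theorem result : ∀ C : ℝ,
    ((fun n : ℕ => (tileCount n 3 : ℝ)) =O[atTop]
      fun n : ℕ => (n : ℝ) ^ C * ((3 : ℝ) ^ ((1 : ℝ) / 3)) ^ (n ^ 3)) → 3 ≤ C := by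
  intro C hO
  by_contra hC
  push Not at hC
  obtain ⟨K, hK⟩ := hO.bound
  have h3 : Tendsto (fun t : ℕ => 3 * t) atTop atTop :=
    tendsto_id.const_mul_atTop' (by norm_num)
  have h4 := h3.eventually hK
  have hlim : Tendsto (fun t : ℕ => (t : ℝ) ^ (3 - C)) atTop atTop :=
    (tendsto_rpow_atTop (by linarith)).comp tendsto_natCast_atTop_atTop
  have h5 := hlim.eventually_gt_atTop (K * 3 ^ C / 4)
  obtain ⟨t, h6, h7, h8, h9⟩ :=
    (h4.and (eventually_tileCount_ge.and (h5.and (eventually_ge_atTop 1)))).exists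
  have ht : (0 : ℝ) < t := by exact_mod_cast h9
  rw [Real.norm_of_nonneg (Nat.cast_nonneg _), Real.norm_of_nonneg (by positivity)] at h6
  change _ ≤ K * (((3 * t : ℕ) : ℝ) ^ C * κ ^ ((3 * t) ^ 3)) at h6
  have hκ : 0 < κ ^ ((3 * t) ^ 3) := pow_pos κ_pos _
  have h10 : 4 * (t : ℝ) ^ 3 ≤ K * ((3 * t : ℕ) : ℝ) ^ C := by
    have h11 := h7.trans h6
    rw [← mul_assoc] at h11
    exact le_of_mul_le_mul_right h11 hκ
  have h12 : ((3 * t : ℕ) : ℝ) ^ C = 3 ^ C * (t : ℝ) ^ C := by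
    push_cast
    rw [Real.mul_rpow (by norm_num) ht.le]
  have h13 : (t : ℝ) ^ 3 = (t : ℝ) ^ (3 - C) * (t : ℝ) ^ C := by
    rw [← Real.rpow_add ht, sub_add_cancel]
    norm_cast
  rw [h12, h13] at h10
  have htC : 0 < (t : ℝ) ^ C := Real.rpow_pos_of_pos ht _
  have h14 : 4 * (t : ℝ) ^ (3 - C) ≤ K * 3 ^ C := by
    refine le_of_mul_le_mul_right ?_ htC
    calc 4 * (t : ℝ) ^ (3 - C) * (t : ℝ) ^ C = 4 * ((t : ℝ) ^ (3 - C) * (t : ℝ) ^ C) := by ring
      _ ≤ K * (3 ^ C * (t : ℝ) ^ C) := h10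
      _ = K * 3 ^ C * (t : ℝ) ^ C := by ring
  linarith

end Pool.Agent.Results.MP_13da68_co.ExponentThree
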