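import Pool.Agent.Work.MP_13da68_co.Upper

open Filter Asymptotics

namespace Pool.Agent.Results.MP_13da68_co.PolynomialCorrection

open Pool.Agent.Work.MP_13da68_co

/-- Q1 of MP_13da68_co, affirmative answer with the explicit constant `C(d) = 10 d 3^d`:
for each fixed `d ≥ 1`, `t_{n,d} = O(n^{C(d)} (3^{1/3})^{n^d})` as `n → ∞`. -/
theorem result : ∀ d : ℕ, 1 ≤ d →
    (fun n : ℕ => (tileCount n d : ℝ)) =O[atTop]
      fun n : ℕ => (n : ℝ) ^ (10 * d * 3 ^ d) * ((3 : ℝ) ^ ((1 : ℝ) / 3)) ^ (n ^ d) := by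
  intro d _
  refine IsBigO.of_bound ((2 ^ d + 1) ^ (10 * 3 ^ d) + 1) ?_
  filter_upwards [eventually_ge_atTop 1] with n hn
  have h := tileCount_le' n d hn
  rw [Real.norm_of_nonneg (Nat.cast_nonneg _), Real.norm_of_nonneg (by positivity)]
  exact h

end Pool.Agent.Results.MP_13da68_co.PolynomialCorrection
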